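import Pool.Agent.Helper10.SP.GoalsC

/-! # Packet SP-LMAP: the leaf map -/

open Complex Metric Set Filter Topology MeasureTheory
open scoped ContDiff ComplexConjugate ComplexOrder Manifold

namespace Pool.Agent.Helper27.SP

open Pool.Agent.Helper95.Lin Pool.Agent.Helper16.Abund Pool.Agent.Helper92.Orb
open Pool.Agent.Helper10.SP

universe u v

section basics

variable {b : ℕ}

lemma base_pt (z : Cn b) (w : ℂ) : base (pt z w) = z := by
  funext i
  simp [base, pt]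

lemma lc_pt (z : Cn b) (w : ℂ) : lc (pt z w) = w := by
  simp [lc, pt]

lemma pt_base_lc (x : Cn (b + 1)) : pt (base x) (lc x) = x := by
  funext i
  refine Fin.addCases (fun j => ?_) (fun j => ?_) i
  · simp [pt, base]
  · have : j = 0 := Subsingleton.elim _ _
    subst this
    simp [pt, lc]

lemma base_sub (x y : Cn (b + 1)) : base (b := b) (k := 1) (x - y) = base x - base y := rfl

lemma lc_sub (x y : Cn (b + 1)) : lc (x - y) = lc x - lc y := rfl

lemma cont_base : Continuous (fun x : Cn (b + 1) => base (b := b) (k := 1) x) := by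
  unfold base
  fun_prop

lemma cont_lc : Continuous (fun x : Cn (b + 1) => lc x) := by
  unfold lc
  fun_prop

lemma isOpen_prodS {U : Set (Cn b)} {Δ : Set ℂ} (hU : IsOpen U) (hΔ : IsOpen Δ) :
    IsOpen (prodS U Δ) :=
  (hU.preimage cont_base).inter (hΔ.preimage cont_lc)

lemma isOpen_tubeS {D : Set (Cn b)} (hD : IsOpen D) : IsOpen (tubeS D) :=
  hD.preimage cont_base

end basics

section man

variable {n : ℕ} {M : Type v} [TopologicalSpace M] [ChartedSpace (Fin n → ℂ) M]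

lemma par_mono {ψ : Cn n → M} {V V' : Set (Cn n)} (h : Par n ψ V) (hV : IsOpen V')
    (hs : V' ⊆ V) : Par n ψ V' :=
  ⟨⟨hV, h.1.2.mono hs⟩, fun z hz => h.2 z (hs hz)⟩

lemma jac_congr {ψ ψ' : Cn n → M} {x : Cn n} (h : ψ =ᶠ[𝓝 x] ψ') : jac n ψ x = jac n ψ' x := by
  unfold jac
  rw [h.mfderiv_eq]

lemma lpot_congr (v : M → ℝ) {ψ ψ' : Cn n → M} {x : Cn n} (h : ψ =ᶠ[𝓝 x] ψ') :
    lpot n v ψ x = lpot n v ψ' x := by
  unfold lpot
  rw [jac_congr h, h.eq_of_nhds]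

lemma par_local {ψ : Cn n → M} {V : Set (Cn n)} (hV : IsOpen V)
    (h : ∀ x ∈ V, ∃ (ψ' : Cn n → M) (V' : Set (Cn n)), Par n ψ' V' ∧ x ∈ V' ∧ ψ =ᶠ[𝓝 x] ψ') :
    Par n ψ V := by
  refine ⟨⟨hV, fun x hx => ?_⟩, fun x hx => ?_⟩
  · obtain ⟨ψ', V', hp, hxV, he⟩ := h x hx
    have h1 : MDifferentiableAt 𝓘(ℂ, Fin n → ℂ) 𝓘(ℂ, Fin n → ℂ) ψ' x :=
      (hp.1.2 x hxV).mdifferentiableAt (hp.1.1.mem_nhds hxV)
    exact (h1.congr_of_eventuallyEq he).mdifferentiableWithinAt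
  · obtain ⟨ψ', V', hp, hxV, he⟩ := h x hx
    rw [jac_congr he]
    exact hp.2 x hxV

end man

section levs

variable {b : ℕ}

lemma lev_congr {f g : Cn b → ℝ} {x : Cn b} (h : f =ᶠ[𝓝 x] g) (e : Cn b) :
    lev f x e = lev g x e := by
  have h1 : ∀ u : Cn b, (fun y => fderiv ℝ f y u) =ᶠ[𝓝 x] (fun y => fderiv ℝ g y u) := by
    intro u
    filter_upwards [h.eventuallyEq_nhds] with y hy
    rw [hy.fderiv_eq]
  unfold lev hess
  rw [(h1 e).fderiv_eq, (h1 (I • e)).fderiv_eq]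

lemma lev_shift (f : Cn b → ℝ) (c x e : Cn b) :
    lev (fun y => f (y - c)) x e = lev f (x - c) e := by
  have h1 : ∀ u : Cn b, (fun y => fderiv ℝ (fun y => f (y - c)) y u) =
      fun y => (fun y => fderiv ℝ f y u) (y - c) := by
    intro u
    funext y
    rw [fderiv_comp_sub]
  have h2 : ∀ g : Cn b → ℝ, fderiv ℝ (fun y => g (y - c)) x = fderiv ℝ g (x - c) := by
    intro g
    rw [fderiv_comp_sub]
  unfold lev hess
  rw [h1, h1, h2 (fun y => fderiv ℝ f y e), h2 (fun y => fderiv ℝ f y (I • e))]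

end levs

/-- The iteration. -/
lemma iter {b : ℕ} {M : Type v} [TopologicalSpace M] [ChartedSpace (Fin (b + 1) → ℂ) M]
    (v : M → ℝ) (Ψ : Cn b → ℝ) (r₀ : ℝ) (hr₀ : 0 < r₀) (ψ : Cn (b + 1) → M)
    (h0 : Spec v (ball 0 5) (ball 0 5) ψ Ψ)
    (hext : ∀ (ρ : ℝ) (χ : Cn (b + 1) → M), 0 < ρ → Spec v (ball 0 5) (ball 0 ρ) χ Ψ →
      ∃ χ' : Cn (b + 1) → M, Spec v (ball 0 5) (ball 0 (ρ + r₀)) χ' Ψ ∧
        EqOn χ' χ (prodS (ball 0 5) (ball 0 ρ))) :
    ∃ E : Cn (b + 1) → M, Par (b + 1) E (prodS (ball 0 5) univ) ∧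
      (∀ x ∈ prodS (ball 0 5) univ, lpot (b + 1) v E x = Ψ (base x)) ∧
      EqOn E ψ (prodS (ball 0 5) (ball 0 5)) := by
  classical
  choose! f hf using hext
  let F : ℕ → (Cn (b + 1) → M) := fun n => Nat.rec ψ (fun m χ => f (5 + m * r₀) χ) n
  have hF0 : F 0 = ψ := rfl
  have hFs : ∀ m, F (m + 1) = f (5 + m * r₀) (F m) := fun m => rfl
  have hpos : ∀ m : ℕ, (0 : ℝ) < 5 + m * r₀ := by
    intro m
    positivity
  have hF : ∀ m : ℕ, Spec v (ball 0 5) (ball 0 (5 + m * r₀)) (F m) Ψ := by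
    intro m
    induction m with
    | zero => simpa [hF0] using h0
    | succ m ih =>
      have := (hf (5 + m * r₀) (F m) (hpos m) ih).1
      rw [hFs]
      have e : (5 : ℝ) + ((m + 1 : ℕ) : ℝ) * r₀ = 5 + m * r₀ + r₀ := by push_cast; ring
      rw [e]
      exact this
  have hE1 : ∀ m : ℕ, EqOn (F (m + 1)) (F m) (prodS (ball 0 5) (ball 0 (5 + m * r₀))) := by
    intro m
    rw [hFs]
    exact (hf (5 + m * r₀) (F m) (hpos m) (hF m)).2
  have hE2 : ∀ m k : ℕ, EqOn (F (m + k)) (F m) (prodS (ball 0 5) (ball 0 (5 + m * r₀))) := by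
    intro m k
    induction k with
    | zero => intro x _; rfl
    | succ k ih =>
      intro x hx
      rw [← ih hx, ← add_assoc]
      refine hE1 (m + k) ⟨hx.1, ?_⟩
      have h2 := hx.2
      rw [mem_ball_zero_iff] at h2 ⊢
      refine h2.trans_le ?_
      push_cast
      have : (0 : ℝ) ≤ k * r₀ := by positivity
      linarith
  have hE3 : ∀ m k : ℕ, ∀ x ∈ prodS (ball (0 : Cn b) 5) (ball 0 (5 + m * r₀)),
      x ∈ prodS (ball (0 : Cn b) 5) (ball 0 (5 + k * r₀)) → F m x = F k x := by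
    intro m k x hx hx'
    rcases le_total m k with h | h
    · obtain ⟨j, rfl⟩ := Nat.exists_eq_add_of_le h
      exact (hE2 m j hx).symm
    · obtain ⟨j, rfl⟩ := Nat.exists_eq_add_of_le h
      exact hE2 k j hx'
  -- the index
  let ix : Cn (b + 1) → ℕ := fun x => ⌈‖lc x‖ / r₀⌉₊
  have hix : ∀ x ∈ prodS (ball (0 : Cn b) 5) univ,
      x ∈ prodS (ball (0 : Cn b) 5) (ball 0 (5 + (ix x : ℕ) * r₀)) := by
    intro x hx
    refine ⟨hx.1, ?_⟩
    rw [mem_ball_zero_iff]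
    have h1 : ‖lc x‖ / r₀ ≤ (ix x : ℕ) := Nat.le_ceil _
    rw [div_le_iff₀ hr₀] at h1
    linarith
  have hEE : ∀ m : ℕ, ∀ x ∈ prodS (ball (0 : Cn b) 5) (ball 0 (5 + m * r₀)),
      F (ix x) x = F m x := by
    intro m x hx
    exact hE3 _ _ x (hix x ⟨hx.1, mem_univ _⟩) hx
  have hloc : ∀ x ∈ prodS (ball (0 : Cn b) 5) univ,
      (fun y => F (ix y) y) =ᶠ[𝓝 x] F (ix x) := by
    intro x hx
    have hop : IsOpen (prodS (ball (0 : Cn b) 5) (ball 0 (5 + (ix x : ℕ) * r₀))) :=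
      isOpen_prodS isOpen_ball isOpen_ball
    filter_upwards [hop.mem_nhds (hix x hx)] with y hy
    exact hEE _ y hy
  refine ⟨fun y => F (ix y) y, ?_, ?_, ?_⟩
  · refine par_local (isOpen_prodS isOpen_ball isOpen_univ) (fun x hx => ?_)
    exact ⟨F (ix x), _, (hF (ix x)).1, hix x hx, hloc x hx⟩
  · intro x hx
    rw [lpot_congr v (hloc x hx)]
    exact (hF (ix x)).2.2.2 x (hix x hx)
  · intro x hx
    have := hEE 0 x (by simpa using hx)
    rw [hF0] at this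
    exact this

theorem lmap (hFIN : S_FINSP.{u, v}) (hEXT : S_EXTS.{u, v}) (hPAR : S_PARB.{u, v}) :
    S_LMAP.{u, v} := by
  classical
  intro b G M _ _ _ _ _ _ _ h v hb hD
  obtain ⟨k, ψ, Ψ, hk, hsp, hcov⟩ := hFIN hD
  obtain ⟨r₀, hr₀, hext⟩ := hEXT hD k ψ Ψ hsp hcov
  have h0 : ∀ i, Spec v (ball 0 5) (ball 0 5) (ψ i) (Ψ i) := by
    intro i
    obtain ⟨h1, h2, h3, h4⟩ := hsp i
    have s1 : (ball (0 : Cn b) 5) ⊆ ball 0 6 := ball_subset_ball (by norm_num)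
    have s2 : (ball (0 : ℂ) 5) ⊆ ball 0 6 := ball_subset_ball (by norm_num)
    exact ⟨par_mono h1 (isOpen_prodS isOpen_ball isOpen_ball) (fun x hx => ⟨s1 hx.1, s2 hx.2⟩),
      h2.mono s1, fun z hz => h3 z (s1 hz), fun x hx => h4 x ⟨s1 hx.1, s2 hx.2⟩⟩
  have hit := fun i => iter v (Ψ i) r₀ hr₀ (ψ i) (h0 i) (hext i)
  choose E hE1 hE2 hE3 using hit
  -- the centres
  let c : Fin k → Cn b := fun i _ => ((100 * (i : ℕ) : ℝ) : ℂ)
  have : Nonempty (Fin b) := ⟨⟨0, hb⟩⟩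
  have hsep : ∀ i j, i ≠ j → 10 * (5 : ℝ) ≤ ‖c i - c j‖ := by
    intro i j hij
    have h1 : ‖(c i - c j) ⟨0, hb⟩‖ ≤ ‖c i - c j‖ := norm_le_pi_norm (c i - c j) ⟨0, hb⟩
    refine le_trans ?_ h1
    have h2 : (c i - c j) ⟨0, hb⟩ = (((100 * (i : ℕ) : ℝ) - (100 * (j : ℕ) : ℝ) : ℝ) : ℂ) := by
      simp [c]
    rw [h2, Complex.norm_real, Real.norm_eq_abs]
    have h3 : (1 : ℝ) ≤ |((i : ℕ) : ℝ) - ((j : ℕ) : ℝ)| := by
      have h4 : ((i : ℕ) : ℤ) ≠ ((j : ℕ) : ℤ) := by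
        intro h5
        apply hij
        exact Fin.ext (by exact_mod_cast h5)
      have h5 : (1 : ℤ) ≤ |((i : ℕ) : ℤ) - ((j : ℕ) : ℤ)| :=
        Int.one_le_abs (sub_ne_zero.2 h4)
      exact_mod_cast h5
    have h6 : (100 * ((i : ℕ) : ℝ) - 100 * ((j : ℕ) : ℝ)) =
        100 * (((i : ℕ) : ℝ) - ((j : ℕ) : ℝ)) := by ring
    rw [h6, abs_mul, abs_of_pos (by norm_num : (0 : ℝ) < 100)]
    linarith
  have huniq : ∀ (z : Cn b) i j, z ∈ ball (c i) 5 → z ∈ ball (c j) 5 → i = j := by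
    intro z i j hi hj
    by_contra hij
    have h1 := hsep i j hij
    rw [mem_ball, dist_eq_norm] at hi hj
    have h2 : c i - c j = (z - c j) - (z - c i) := by abel
    have h3 : ‖c i - c j‖ ≤ ‖z - c j‖ + ‖z - c i‖ := by
      rw [h2]; exact norm_sub_le _ _
    linarith
  -- the index of a point
  let ix : Cn b → Fin k := fun z => if h : ∃ i, z ∈ ball (c i) 5 then h.choose else ⟨0, hk⟩
  have hix : ∀ (z : Cn b) i, z ∈ ball (c i) 5 → ix z = i := by
    intro z i hz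
    have hex : ∃ i, z ∈ ball (c i) 5 := ⟨i, hz⟩
    have h1 : ix z = hex.choose := by
      simp only [ix]
      rw [dif_pos hex]
    rw [h1]
    exact huniq z _ _ hex.choose_spec hz
  let EE : Cn (b + 1) → M := fun x => E (ix (base x)) (x - pt (c (ix (base x))) 0)
  let Φ : Cn b → ℝ := fun z => Ψ (ix z) (z - c (ix z))
  have hbase : ∀ (i : Fin k) (x : Cn (b + 1)), base (b := b) (k := 1) (x - pt (c i) 0) =
      base x - c i := by
    intro i x
    rw [base_sub, base_pt]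
  have hlc : ∀ (i : Fin k) (x : Cn (b + 1)), lc (x - pt (c i) 0) = lc x := by
    intro i x
    rw [lc_sub, lc_pt, sub_zero]
  have hmemball : ∀ (i : Fin k) (z : Cn b) (r : ℝ), z ∈ ball (c i) r ↔
      z - c i ∈ ball (0 : Cn b) r := by
    intro i z r
    rw [mem_ball, dist_eq_norm, mem_ball_zero_iff]
  have hEEloc : ∀ (x : Cn (b + 1)) i, base (b := b) (k := 1) x ∈ ball (c i) 5 →
      EE =ᶠ[𝓝 x] (E i ∘ fun y => y - pt (c i) 0) := by
    intro x i hx
    have hop : IsOpen (tubeS (ball (c i) 5)) := isOpen_tubeS isOpen_ball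
    filter_upwards [hop.mem_nhds hx] with y hy
    have : ix (base y) = i := hix _ i hy
    simp only [EE, this, Function.comp]
  have hΦloc : ∀ (z : Cn b) i, z ∈ ball (c i) 5 → Φ =ᶠ[𝓝 z] fun y => Ψ i (y - c i) := by
    intro z i hz
    filter_upwards [isOpen_ball.mem_nhds hz] with y hy
    have : ix y = i := hix _ i hy
    simp only [Φ, this]
  -- the shifted maps
  have hsh : ∀ i, Par (b + 1) (E i ∘ fun y => y - pt (c i) 0) (tubeS (ball (c i) 5)) ∧
      ∀ x ∈ tubeS (ball (c i) 5), lpot (b + 1) v (E i ∘ fun y => y - pt (c i) 0) x =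
        Ψ i (base x - c i) := by
    intro i
    have hop : IsOpen (tubeS (ball (c i) 5)) := isOpen_tubeS isOpen_ball
    have hmaps : MapsTo (fun y : Cn (b + 1) => y - pt (c i) 0) (tubeS (ball (c i) 5))
        (prodS (ball (0 : Cn b) 5) univ) := by
      intro x hx
      refine ⟨?_, mem_univ _⟩
      rw [hbase]
      exact (hmemball i _ 5).1 hx
    have hfd : ∀ x : Cn (b + 1), fderiv ℂ (fun y : Cn (b + 1) => y - pt (c i) 0) x =
        ContinuousLinearMap.id ℂ _ := by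
      intro x
      rw [fderiv_sub_const]
      exact fderiv_fun_id
    have hdet : ∀ x : Cn (b + 1),
        (fderiv ℂ (fun y : Cn (b + 1) => y - pt (c i) 0) x).det = 1 := by
      intro x
      rw [hfd]
      simp [ContinuousLinearMap.det]
    obtain ⟨h1, h2⟩ := (hPAR hD).1 _ (tubeS (ball (c i) 5)) (E i)
      (fun y : Cn (b + 1) => y - pt (c i) 0) (hE1 i) hop
      ((differentiable_id.sub_const _).differentiableOn) hmaps
      (fun x _ => by rw [hdet]; exact one_ne_zero)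
    refine ⟨h1, fun x hx => ?_⟩
    rw [(h2 x hx).2, hdet, hE2 i _ (hmaps hx), hbase]
    simp
  refine ⟨k, c, EE, Φ, hk, by norm_num, hsep, ?_, ?_, ?_, ?_, ?_⟩
  · refine par_local (isOpen_tubeS (isOpen_iUnion fun i => isOpen_ball)) (fun x hx => ?_)
    obtain ⟨i, hi⟩ := mem_iUnion.1 hx
    exact ⟨_, _, (hsh i).1, hi, hEEloc x i hi⟩
  · intro z hz
    obtain ⟨i, hi⟩ := mem_iUnion.1 hz
    have h1 : ContDiffAt ℝ ∞ (Ψ i) (z - c i) :=
      (h0 i).2.1.contDiffAt (isOpen_ball.mem_nhds ((hmemball i z 5).1 hi))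
    have h2 : ContDiffAt ℝ ∞ (fun y => Ψ i (y - c i)) z :=
      ContDiffAt.comp z h1 (contDiffAt_id.sub contDiffAt_const)
    exact (h2.congr_of_eventuallyEq (hΦloc z i hi)).contDiffWithinAt
  · intro z hz e he
    obtain ⟨i, hi⟩ := mem_iUnion.1 hz
    rw [lev_congr (hΦloc z i hi), lev_shift]
    exact (h0 i).2.2.1 _ ((hmemball i z 5).1 hi) e he
  · intro x hx
    obtain ⟨i, hi⟩ := mem_iUnion.1 hx
    rw [lpot_congr v (hEEloc x i hi), (hsh i).2 x hi, (hΦloc _ i hi).eq_of_nhds]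
  · intro p
    obtain ⟨γ, i, x, hx, hp⟩ := hcov p
    have hz1 : base (b := b) (k := 1) x + c i ∈ ball (c i) 1 := by
      rw [hmemball, add_sub_cancel_right]
      exact hx.1
    have hz5 : base (b := b) (k := 1) x + c i ∈ ball (c i) 5 :=
      ball_subset_ball (by norm_num) hz1
    refine ⟨γ, base x + c i, mem_iUnion.2 ⟨i, hz1⟩, lc x, mem_ball_zero_iff.1 hx.2, ?_⟩
    rw [hp]
    have h1 : EE (pt (base x + c i) (lc x)) = E i (pt (base x + c i) (lc x) - pt (c i) 0) := by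
      have := (hEEloc (pt (base x + c i) (lc x)) i (by rw [base_pt]; exact hz5)).eq_of_nhds
      rw [this]
      rfl
    have h2 : pt (base x + c i) (lc x) - pt (c i) 0 = x := by
      rw [← pt_base_lc (pt (base x + c i) (lc x) - pt (c i) 0), hbase, hlc, base_pt, lc_pt,
        add_sub_cancel_right, pt_base_lc]
    rw [h1, h2]
    refine (hE3 i ⟨?_, ?_⟩).symm
    · exact ball_subset_ball (by norm_num) hx.1
    · exact ball_subset_ball (by norm_num) hx.2

end Pool.Agent.Helper27.SP
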