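import Pool.Agent.Helper45.SP.GoalsF
import Pool.Agent.Helper68.Lin.CAU

/-! # Packet SP-SURJ: maps near the identity are onto smaller balls -/

open Complex Metric Set Filter Topology
open scoped ContDiff ComplexConjugate

namespace Pool.Agent.Helper27.SP

open Pool.Agent.Helper95.Lin Pool.Agent.Helper10.SP Pool.Agent.Helper45.SP

theorem SURJ : S_SURJ := by
  intro b z₀ ρ ρ' hρ ε hε
  set m : ℝ := (ρ' - ρ) / 4 with hm
  have hmpos : 0 < m := by rw [hm]; linarith
  have hKsub : closedBall z₀ (ρ + 2 * m) ⊆ ball z₀ ρ' := closedBall_subset_ball (by linarith)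
  obtain ⟨K', hK'sub, -, hKint, C, hC0, hC⟩ := Pool.Agent.Helper68.Lin.CAU (n := b) (m := b)
    (ball z₀ ρ') isOpen_ball (closedBall z₀ (ρ + 2 * m)) hKsub (isCompact_closedBall _ _)
  have hη1 : 0 < 1 / (2 * C + 2) := by positivity
  have hη2 : 0 < ε / (C + 1) := by positivity
  obtain ⟨η, hηpos, hηm, hηC, hηε⟩ : ∃ η : ℝ, 0 < η ∧ η ≤ m ∧ η ≤ 1 / (2 * C + 2) ∧
      η ≤ ε / (C + 1) :=
    ⟨min m (min (1 / (2 * C + 2)) (ε / (C + 1))), lt_min hmpos (lt_min hη1 hη2),
      min_le_left _ _, (min_le_right _ _).trans (min_le_left _ _),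
      (min_le_right _ _).trans (min_le_right _ _)⟩
  have hCη : C * η ≤ 1 / 2 := by
    have h1 : C * η ≤ C * (1 / (2 * C + 2)) := mul_le_mul_of_nonneg_left hηC hC0
    refine h1.trans ?_
    rw [mul_one_div, div_le_div_iff₀ (by positivity) (by norm_num)]
    linarith
  have hCε : C * η ≤ ε := by
    have h1 : C * η ≤ C * (ε / (C + 1)) := mul_le_mul_of_nonneg_left hηε hC0
    refine h1.trans ?_
    rw [← mul_div_assoc, div_le_iff₀ (by positivity)]
    nlinarith
  have hηε' : η ≤ ε := by
    refine hηε.trans ?_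
    rw [div_le_iff₀ (by positivity)]
    nlinarith
  refine ⟨η, hηpos, fun f hf hnear => ?_⟩
  have hg : DifferentiableOn ℂ (fun z => f z - z) (ball z₀ ρ') := hf.sub differentiableOn_id
  obtain ⟨hd, hl⟩ := hC (fun z => f z - z) hg η (fun z hz => hnear z (hK'sub hz))
  constructor
  · intro w hw
    have hsubK : closedBall w η ⊆ closedBall z₀ (ρ + 2 * m) := by
      intro z hz
      rw [mem_closedBall] at hz ⊢
      rw [mem_ball] at hw
      have := dist_triangle z w z₀
      linarith
    have hmaps : MapsTo (fun z => w - (f z - z)) (closedBall w η) (closedBall w η) := by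
      intro z hz
      rw [mem_closedBall, dist_eq_norm]
      have h1 : w - (f z - z) - w = -(f z - z) := by abel
      rw [h1, norm_neg]
      exact hnear z (hKsub (hsubK hz))
    have hcontr : ContractingWith (1 / 2 : NNReal)
        (hmaps.restrict (fun z => w - (f z - z)) (closedBall w η) (closedBall w η)) := by
      refine ⟨?_, LipschitzWith.of_dist_le_mul ?_⟩
      · rw [← NNReal.coe_lt_coe]
        norm_num
      · intro x y
        rw [Subtype.dist_eq, Subtype.dist_eq, dist_eq_norm, dist_eq_norm]
        have h1 := hl x.1 (hsubK x.2) y.1 (hsubK y.2)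
        have h2 : (hmaps.restrict (fun z => w - (f z - z)) (closedBall w η) (closedBall w η) x).1 -
            (hmaps.restrict (fun z => w - (f z - z)) (closedBall w η) (closedBall w η) y).1 =
            -((f x.1 - x.1) - (f y.1 - y.1)) := by
          simp only [MapsTo.val_restrict_apply]
          abel
        rw [h2, norm_neg]
        refine h1.trans ?_
        have h3 : ((1 / 2 : NNReal) : ℝ) = 1 / 2 := by norm_num
        rw [h3]
        exact mul_le_mul_of_nonneg_right hCη (norm_nonneg _)
    obtain ⟨z, hz, hfix, -⟩ := hcontr.exists_fixedPoint' (isClosed_closedBall).isComplete hmaps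
      (mem_closedBall_self hηpos.le) (edist_ne_top _ _)
    refine ⟨z, hKsub (hsubK hz), ?_, ?_⟩
    · have h1 : w - (f z - z) = z := hfix
      have h2 : f z = w - (w - (f z - z)) + z := by abel
      rw [h2, h1]
      abel
    · rw [mem_closedBall, dist_eq_norm] at hz
      exact hz.trans hηε'
  · intro z hz
    have hzK : z ∈ closedBall z₀ (ρ + 2 * m) := by
      rw [mem_closedBall]
      rw [mem_ball] at hz
      linarith
    have hz' : z ∈ ball z₀ ρ' := hKsub hzK
    have h1 := hd z hzK
    have h2 : fderiv ℂ (fun z => f z - z) z = fderiv ℂ f z - ContinuousLinearMap.id ℂ (Cn b) := by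
      rw [fderiv_fun_sub ((hf z hz').differentiableAt (isOpen_ball.mem_nhds hz'))
        differentiableAt_fun_id, fderiv_fun_id]
    rw [h2] at h1
    exact h1.trans hCε

end Pool.Agent.Helper27.SP
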