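import Pool.Agent.Helper82.SP.GoalsB

/-!
# Packet SP-B2: every rotation comes from a unit quaternion (project SP, MP_db6300_gt)
-/

set_option autoImplicit false

namespace Pool.Agent.Helper27.SP

open Matrix Real
open Pool.Agent.Helper26.LU (V M3 SO3 nrm sph proj Bm Rot crossM)
open Pool.Agent.Helper71.Tet (Mq nq Mq_orth)
open Pool.Agent.Helper82.SP

theorem det_Mq (q : Fin 4 → ℝ) : (Mq q).det = nq q ^ 3 := by
  simp only [Mq, nq, Matrix.det_fin_three, Matrix.of_apply, Matrix.cons_val', Matrix.cons_val_zero,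
    Matrix.cons_val_one, Matrix.cons_val, Matrix.cons_val_fin_one]
  ring

theorem Mq_smul (c : ℝ) (q : Fin 4 → ℝ) : Mq (c • q) = c ^ 2 • Mq q := by
  ext i j
  fin_cases i <;> fin_cases j <;> simp [Mq] <;> ring

theorem nq_smul (c : ℝ) (q : Fin 4 → ℝ) : nq (c • q) = c ^ 2 * nq q := by
  simp [nq]; ring

/-- The case of a positive trace plus one. -/
theorem core (a b c d e f g h i : ℝ)
    (hR : !![a, b, c; d, e, f; g, h, i] * (!![a, b, c; d, e, f; g, h, i])ᵀ = 1)
    (hd : (!![a, b, c; d, e, f; g, h, i]).det = 1) (ht : 0 < 1 + a + e + i) :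
    ∃ q : Fin 4 → ℝ, nq q = 1 ∧ Mq q = !![a, b, c; d, e, f; g, h, i] := by
  have hL : (!![a, b, c; d, e, f; g, h, i])ᵀ * !![a, b, c; d, e, f; g, h, i] = 1 :=
    mul_eq_one_comm.1 hR
  have hA : (!![a, b, c; d, e, f; g, h, i]).adjugate = (!![a, b, c; d, e, f; g, h, i])ᵀ := by
    calc (!![a, b, c; d, e, f; g, h, i]).adjugate
        = (!![a, b, c; d, e, f; g, h, i]).adjugate *
          (!![a, b, c; d, e, f; g, h, i] * (!![a, b, c; d, e, f; g, h, i])ᵀ) := by
            rw [hR, Matrix.mul_one]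
      _ = (!![a, b, c; d, e, f; g, h, i])ᵀ := by
            rw [← Matrix.mul_assoc, Matrix.adjugate_mul, hd, one_smul, Matrix.one_mul]
  rw [Matrix.adjugate_fin_three_of] at hA
  have E : ∀ M N : M3, M = N → ∀ p r, M p r = N p r := fun M N h p r => by rw [h]
  have r00 := E _ _ hR 0 0
  have r11 := E _ _ hR 1 1
  have r22 := E _ _ hR 2 2
  have r01 := E _ _ hR 0 1
  have r02 := E _ _ hR 0 2
  have r12 := E _ _ hR 1 2
  have c00 := E _ _ hL 0 0
  have c11 := E _ _ hL 1 1
  have c22 := E _ _ hL 2 2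
  have c01 := E _ _ hL 0 1
  have c02 := E _ _ hL 0 2
  have c12 := E _ _ hL 1 2
  have k00 := E _ _ hA 0 0
  have k01 := E _ _ hA 0 1
  have k02 := E _ _ hA 0 2
  have k10 := E _ _ hA 1 0
  have k11 := E _ _ hA 1 1
  have k12 := E _ _ hA 1 2
  have k20 := E _ _ hA 2 0
  have k21 := E _ _ hA 2 1
  have k22 := E _ _ hA 2 2
  simp [Matrix.mul_apply, Fin.sum_univ_three, Matrix.transpose_apply] at r00 r11 r22 r01 r02 r12
  simp [Matrix.mul_apply, Fin.sum_univ_three, Matrix.transpose_apply] at c00 c11 c22 c01 c02 c12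
  simp [Matrix.transpose_apply] at k00 k01 k02 k10 k11 k12 k20 k21 k22
  have A1 : (h - f) ^ 2 = (1 + a + e + i) * (1 + a - e - i) := by
    linear_combination r11 + r22 - c00 + 2 * k00
  have A2 : (c - g) ^ 2 = (1 + a + e + i) * (1 - a + e - i) := by
    linear_combination r00 + r22 - c11 + 2 * k11
  have A3 : (d - b) ^ 2 = (1 + a + e + i) * (1 - a - e + i) := by
    linear_combination r00 + r11 - c22 + 2 * k22
  have A12 : (h - f) * (c - g) = (1 + a + e + i) * (b + d) := by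
    linear_combination k01 + k10 - c01 - r01
  have A13 : (h - f) * (d - b) = (1 + a + e + i) * (c + g) := by
    linear_combination k20 + k02 - r02 - c02
  have A23 : (c - g) * (d - b) = (1 + a + e + i) * (f + h) := by
    linear_combination k12 + k21 - c12 - r12
  obtain ⟨s, hs⟩ : ∃ s : ℝ, s ^ 2 * (4 * (1 + a + e + i)) = 1 := by
    refine ⟨1 / (2 * Real.sqrt (1 + a + e + i)), ?_⟩
    have h1 : Real.sqrt (1 + a + e + i) ^ 2 = 1 + a + e + i := Real.sq_sqrt ht.le
    rw [div_pow, mul_pow, h1]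
    field_simp
    norm_num
  refine ⟨s • ![1 + a + e + i, h - f, c - g, d - b], ?_, ?_⟩
  · rw [nq_smul]
    simp only [nq, Matrix.cons_val_zero, Matrix.cons_val_one, Matrix.cons_val]
    rw [A1, A2, A3]
    linear_combination hs
  · rw [Mq_smul]
    have e1 : Mq ![1 + a + e + i, h - f, c - g, d - b]
        = (4 * (1 + a + e + i)) • !![a, b, c; d, e, f; g, h, i] := by
      ext p r
      fin_cases p <;> fin_cases r <;>
        simp [Mq] <;>
        first
        | linear_combination A1 - A2 - A3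
        | linear_combination -A1 + A2 - A3
        | linear_combination -A1 - A2 + A3
        | linear_combination 2 * A12
        | linear_combination 2 * A13
        | linear_combination 2 * A23
    rw [e1, smul_smul, hs, one_smul]

/-- Right multiplication by the half turns. -/
theorem Mq_D1 (q : Fin 4 → ℝ) :
    Mq q * !![1, 0, 0; 0, -1, 0; 0, 0, -1] = Mq ![-q 1, q 0, q 3, -q 2] := by
  ext p r
  fin_cases p <;> fin_cases r <;> simp [Mq, Matrix.mul_apply, Fin.sum_univ_three] <;> ring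

theorem Mq_D2 (q : Fin 4 → ℝ) :
    Mq q * !![-1, 0, 0; 0, 1, 0; 0, 0, -1] = Mq ![-q 2, -q 3, q 0, q 1] := by
  ext p r
  fin_cases p <;> fin_cases r <;> simp [Mq, Matrix.mul_apply, Fin.sum_univ_three] <;> ring

theorem Mq_D3 (q : Fin 4 → ℝ) :
    Mq q * !![-1, 0, 0; 0, -1, 0; 0, 0, 1] = Mq ![-q 3, q 2, -q 1, q 0] := by
  ext p r
  fin_cases p <;> fin_cases r <;> simp [Mq, Matrix.mul_apply, Fin.sum_univ_three] <;> ring

theorem coreM (R : M3) (hR : R ∈ SO3) (ht : 0 < 1 + R 0 0 + R 1 1 + R 2 2) :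
    ∃ q : Fin 4 → ℝ, nq q = 1 ∧ Mq q = R := by
  have h1 := (Pool.Agent.Helper26.LU.mem_SO3 R).1 hR
  rw [Matrix.eta_fin_three R] at h1 ⊢
  exact core _ _ _ _ _ _ _ _ _ h1.1 h1.2 ht

theorem goalB2 : G_B2 := by
  constructor
  · intro q hq
    rw [Pool.Agent.Helper26.LU.mem_SO3]
    refine ⟨Mq_orth q hq, ?_⟩
    rw [Matrix.det_smul, det_Mq, Fintype.card_fin]
    field_simp
  · intro R hR
    have hsum : (1 + R 0 0 + R 1 1 + R 2 2) + (1 + R 0 0 - R 1 1 - R 2 2)
      + (1 - R 0 0 + R 1 1 - R 2 2) + (1 - R 0 0 - R 1 1 + R 2 2) = 4 := by ring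
    by_cases h0 : 0 < 1 + R 0 0 + R 1 1 + R 2 2
    · exact coreM R hR h0
    have key : ∀ D : M3, D * D = 1 → D * Dᵀ = 1 → D.det = 1 →
        (0 < 1 + (R * D) 0 0 + (R * D) 1 1 + (R * D) 2 2) →
        (∀ q : Fin 4 → ℝ, ∃ q' : Fin 4 → ℝ, Mq q * D = Mq q' ∧ nq q' = nq q) →
        ∃ q : Fin 4 → ℝ, nq q = 1 ∧ Mq q = R := by
      intro D hDD hDt hDd hpos hq
      have hD : D ∈ SO3 := (Pool.Agent.Helper26.LU.mem_SO3 D).2 ⟨hDt, hDd⟩
      obtain ⟨q, hq1, hq2⟩ := coreM (R * D) (Pool.Agent.Helper26.LU.SO3_mul hR hD) hpos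
      obtain ⟨q', h1, h2⟩ := hq q
      refine ⟨q', by rw [h2, hq1], ?_⟩
      rw [← h1, hq2, Matrix.mul_assoc, hDD, Matrix.mul_one]
    by_cases h1 : 0 < 1 + R 0 0 - R 1 1 - R 2 2
    · refine key !![1, 0, 0; 0, -1, 0; 0, 0, -1] ?_ ?_ ?_ ?_ ?_
      · ext p r
        fin_cases p <;> fin_cases r <;> simp [Matrix.mul_apply, Fin.sum_univ_three]
      · ext p r
        fin_cases p <;> fin_cases r <;>
          simp [Matrix.mul_apply, Fin.sum_univ_three]
      · simp [Matrix.det_fin_three]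
      · simp [Matrix.mul_apply, Fin.sum_univ_three]; linarith
      · intro q
        refine ⟨_, Mq_D1 q, ?_⟩
        simp [nq]; ring
    by_cases h2 : 0 < 1 - R 0 0 + R 1 1 - R 2 2
    · refine key !![-1, 0, 0; 0, 1, 0; 0, 0, -1] ?_ ?_ ?_ ?_ ?_
      · ext p r
        fin_cases p <;> fin_cases r <;> simp [Matrix.mul_apply, Fin.sum_univ_three]
      · ext p r
        fin_cases p <;> fin_cases r <;>
          simp [Matrix.mul_apply, Fin.sum_univ_three]
      · simp [Matrix.det_fin_three]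
      · simp [Matrix.mul_apply, Fin.sum_univ_three]; linarith
      · intro q
        refine ⟨_, Mq_D2 q, ?_⟩
        simp [nq]; ring
    · refine key !![-1, 0, 0; 0, -1, 0; 0, 0, 1] ?_ ?_ ?_ ?_ ?_
      · ext p r
        fin_cases p <;> fin_cases r <;> simp [Matrix.mul_apply, Fin.sum_univ_three]
      · ext p r
        fin_cases p <;> fin_cases r <;>
          simp [Matrix.mul_apply, Fin.sum_univ_three]
      · simp [Matrix.det_fin_three]
      · simp [Matrix.mul_apply, Fin.sum_univ_three]; linarith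
      · intro q
        refine ⟨_, Mq_D3 q, ?_⟩
        simp [nq]; ring

end Pool.Agent.Helper27.SP
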