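import Pool.Agent.Helper45.SP.GoalsF
import Pool.Agent.Helper27.Lin.Montel
import Pool.Agent.Helper19.Lin.IDT

/-! # Packet SP-LFIN: the space of generators of a local group is finite dimensional -/

open Complex Metric Set Filter Topology
open scoped ContDiff ComplexConjugate

namespace Pool.Agent.Helper27.SP

open Pool.Agent.Helper95.Lin Pool.Agent.Helper10.SP Pool.Agent.Helper45.SP

/-- A compact subset of an open ball is in a smaller concentric ball. -/
lemma compact_in_ball {b : ℕ} (z₀ : Cn b) (r : ℝ) (K : Set (Cn b)) (hK : K ⊆ ball z₀ r)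
    (hKc : IsCompact K) : ∃ ρ < r, K ⊆ ball z₀ ρ := by
  rcases K.eq_empty_or_nonempty with h | h
  · exact ⟨r - 1, by linarith, by rw [h]; exact empty_subset _⟩
  · obtain ⟨x, hx, hmax⟩ := hKc.exists_isMaxOn h
      (f := fun z => dist z z₀) (by fun_prop)
    have h1 : dist x z₀ < r := hK hx
    refine ⟨(dist x z₀ + r) / 2, by linarith, fun z hz => ?_⟩
    have h2 : dist z z₀ ≤ dist x z₀ := hmax hz
    rw [mem_ball]
    linarith

theorem LFIN (hLNCMP : S_LNCMP) (hLLIM : S_LLIM') (_ : S_LADD') : S_LFIN := by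
  intro b z₀ r A hH L hL
  classical
  have hIDT : S_IDT := Pool.Agent.Helper19.Lin.idt
  have hMONTEL : S_MONTEL := _root_.Helper27.LinMontel.montel
  have hrpos : 0 < r := hH.pos
  have hO : IsOpen (ball z₀ r) := isOpen_ball
  have hr2 : 0 < r / 2 := by linarith
  set K₀ : Set (Cn b) := closedBall z₀ (r / 2) with hK₀
  have hrD : K₀ ⊆ ball z₀ r := closedBall_subset_ball (by linarith)
  have hK₀c : IsCompact K₀ := isCompact_closedBall _ _
  have hz₀K : z₀ ∈ K₀ := mem_closedBall_self hr2.le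
  have hz₀ : z₀ ∈ ball z₀ r := mem_ball_self hrpos
  have : CompactSpace K₀ := isCompact_iff_compactSpace.1 hK₀c
  have : Nonempty K₀ := ⟨⟨z₀, hz₀K⟩⟩
  have hcont : ∀ V ∈ L, Continuous fun z : K₀ => V z := fun V hV =>
    continuousOn_iff_continuous_restrict.1 ((((hL V).1 hV).1.continuousOn).mono hrD)
  let R : L →ₗ[ℝ] C(K₀, Cn b) :=
    { toFun := fun V => ⟨fun z => V.1 z, hcont V.1 V.2⟩
      map_add' := fun V W => by ext z; rfl
      map_smul' := fun c V => by ext z; rfl }
  have hR : ∀ (V : L) (z : K₀), R V z = V.1 z := fun V z => rfl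
  have hinj : Function.Injective R := by
    rw [injective_iff_map_eq_zero]
    intro V hV
    have hI := (hL V.1).1 V.2
    have h1 : ∀ z ∈ K₀, V.1 z = 0 := fun z hz => by
      have := DFunLike.congr_fun hV (⟨z, hz⟩ : K₀)
      simpa [hR] using this
    have h2 := hIDT (ball z₀ r) hO (convex_ball z₀ r).isPreconnected V.1 hI.1 z₀ hz₀
      (by filter_upwards [closedBall_mem_nhds z₀ hr2] with z hz using h1 z hz)
    apply Subtype.ext
    funext z
    by_cases hz : z ∈ ball z₀ r
    · exact h2 z hz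
    · exact hI.2.1 z hz
  have hseq : IsSeqCompact (closedBall (0 : LinearMap.range R) 1) := by
    intro u hu
    choose V hV using fun n => (u n).2
    have hVb : ∀ n, ∀ z ∈ K₀, ‖(V n).1 z‖ ≤ 1 := by
      intro n z hz
      have h1 : ‖(u n : C(K₀, Cn b))‖ ≤ 1 := by
        have h0 : dist (u n : C(K₀, Cn b)) 0 ≤ 1 := mem_closedBall.1 (hu n)
        rwa [dist_zero_right] at h0
      have h2 := (ContinuousMap.norm_coe_le_norm (u n : C(K₀, Cn b)) ⟨z, hz⟩).trans h1
      rw [← hV n] at h2
      exact h2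
    obtain ⟨φ, hφ, F, hF, hlim⟩ := hMONTEL (ball z₀ r) hO (fun n => (V n).1)
      (fun n => ((hL _).1 (V n).2).1) (by
        intro K hK hKc
        obtain ⟨ρ, hρ, hKρ⟩ := compact_in_ball z₀ r K hK hKc
        obtain ⟨C, _, hC⟩ := hLNCMP hH z₀ (r / 2) hr2 (ball_subset_ball (by linarith)) ρ hρ
        exact ⟨C, fun n z hz => by
          simpa using hC (V n).1 ((hL _).1 (V n).2) 1
            (fun y hy => hVb n y (ball_subset_closedBall hy)) z (hKρ hz)⟩)
    set W : Cn b → Cn b := (ball z₀ r).indicator F with hW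
    have hWF : ∀ z ∈ ball z₀ r, W z = F z := fun z hz => indicator_of_mem hz _
    have hWd : DifferentiableOn ℂ W (ball z₀ r) := hF.congr hWF
    have hWL : W ∈ L := by
      rw [hL]
      refine hLLIM hH W hWd (fun z hz => indicator_of_notMem hz _) ?_
      intro ρ hρ ε hε
      obtain ⟨n, hn⟩ := (hlim (closedBall z₀ ρ) (closedBall_subset_ball hρ)
        (isCompact_closedBall _ _) ε hε).exists
      exact ⟨(V (φ n)).1, (hL _).1 (V (φ n)).2, fun z hz => by
        rw [hWF z (ball_subset_ball hρ.le hz)]; exact hn z (ball_subset_closedBall hz)⟩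
    have htend : Tendsto (u ∘ φ) atTop (𝓝 ⟨R ⟨W, hWL⟩, ⟨_, rfl⟩⟩) := by
      rw [Metric.tendsto_atTop']
      intro ε hε
      have h1 := hlim K₀ hrD hK₀c (ε / 2) (by positivity)
      obtain ⟨N, hN⟩ := eventually_atTop.1 h1
      refine ⟨N, fun n hn => ?_⟩
      have h2 : dist (u (φ n) : C(K₀, Cn b)) (R ⟨W, hWL⟩) ≤ ε / 2 := by
        rw [ContinuousMap.dist_le (by positivity)]
        intro z
        rw [← hV, dist_eq_norm]
        show ‖(V (φ n)).1 z - W z‖ ≤ ε / 2
        rw [hWF z (hrD z.2)]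
        exact hN n hn.le z z.2
      calc dist ((u ∘ φ) n) ⟨R ⟨W, hWL⟩, ⟨_, rfl⟩⟩ =
          dist (u (φ n) : C(K₀, Cn b)) (R ⟨W, hWL⟩) := rfl
        _ ≤ ε / 2 := h2
        _ < ε := by linarith
    refine ⟨_, ?_, φ, hφ, htend⟩
    exact isClosed_closedBall.mem_of_tendsto htend (Eventually.of_forall fun n => hu (φ n))
  have hfin : FiniteDimensional ℝ (LinearMap.range R) := by
    have hcpt : IsCompact (closedBall (0 : LinearMap.range R) 1) := by
      rw [isCompact_iff_isSeqCompact]
      exact hseq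
    exact FiniteDimensional.of_isCompact_closedBall ℝ (V := LinearMap.range R) one_pos hcpt
  have : Module.Finite ℝ (LinearMap.range R) := hfin
  exact Module.Finite.equiv (LinearEquiv.ofInjective R hinj).symm

end Pool.Agent.Helper27.SP
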